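import Pool.Agent.TH368.GD.Lin

/-!
# The smallest graceful tree containing a given tree: `γ(T) ≤ m + 12 (L - 2)`

Let `T` be a finite tree with `m` edges, and let `L` be the number of leaves of the tree obtained
from `T` by deleting all leaves of `T`.  Then `T` is a subtree of a graceful tree with at most
`m + 2 (L - 2) min(log₂ (L - 1), 6)` edges, and with at most `m + 2 (L - 2)` edges if all vertices
with at least three neighbours which are not leaves lie on one path of `T`.
-/

set_option autoImplicit false

namespace Pool.Agent.Results.MP_128071_co.DerivedTwelve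

/-- A graph with `m` edges is graceful if there is an injective map `f` of the vertices to
`{0, 1, …, m}` such that the edge labels `|f u - f v|` are exactly `1, …, m`. -/
def Graceful {V : Type} (T : SimpleGraph V) : Prop :=
  ∃ f : V → ℕ, Function.Injective f ∧ (∀ v, f v ≤ T.edgeSet.ncard) ∧
    {d : ℕ | ∃ u v : V, T.Adj u v ∧ d = Int.natAbs ((f u : ℤ) - (f v : ℤ))} =
      Set.Icc 1 T.edgeSet.ncard

/-- The numbers of edges of the finite graceful trees which have a subgraph isomorphic to `T`. -/
def gracefulSizes {V : Type} (T : SimpleGraph V) : Set ℕ :=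
  {k | ∃ (W : Type) (_ : Fintype W) (T' : SimpleGraph W),
    T'.IsTree ∧ Graceful T' ∧ T.IsContained T' ∧ T'.edgeSet.ncard = k}

/-- `γ(T)`: the least number of edges of a graceful tree which has a subgraph isomorphic to `T`. -/
noncomputable def gamma {V : Type} (T : SimpleGraph V) : ℕ := sInf (gracefulSizes T)

/-- The number of neighbours of `x` which are not leaves. -/
noncomputable def innerDegree {V : Type} (T : SimpleGraph V) (x : V) : ℕ :=
  {y : V | T.Adj x y ∧ 2 ≤ (T.neighborSet y).ncard}.ncard

/-- The number of the vertices of `T` which are not leaves and have at most one neighbour that is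
not a leaf, i.e. of the vertices of degree at most `1` of the tree obtained from `T` by deleting all
leaves. -/
noncomputable def derivedLeaves {V : Type} (T : SimpleGraph V) : ℕ :=
  {x : V | 2 ≤ (T.neighborSet x).ncard ∧ innerDegree T x ≤ 1}.ncard

/-- The vertices with at least three neighbours which are not leaves lie on one path. -/
def BranchingOnPath {V : Type} (T : SimpleGraph V) : Prop :=
  ∃ (x y : V) (q : T.Walk x y), q.IsPath ∧ ∀ z : V, 3 ≤ innerDegree T z → z ∈ q.support

theorem le_of_mem {V : Type} {T : SimpleGraph V} {k : ℕ}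
    (hk : k ∈ gracefulSizes T) : T.edgeSet.ncard ≤ k := by
  classical
  obtain ⟨W, _, T', _, _, ⟨φ⟩, rfl⟩ := hk
  have hinj : Function.Injective φ := φ.injective
  have h1 : Sym2.map φ '' T.edgeSet ⊆ T'.edgeSet := by
    rintro _ ⟨e, he, rfl⟩
    induction e using Sym2.ind with
    | _ x y =>
      rw [Sym2.map_mk, SimpleGraph.mem_edgeSet]
      exact φ.toHom.map_adj ((SimpleGraph.mem_edgeSet T).1 he)
  calc T.edgeSet.ncard = (Sym2.map φ '' T.edgeSet).ncard :=
        (Set.ncard_image_of_injective _ (Sym2.map.injective hinj)).symm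
    _ ≤ T'.edgeSet.ncard := Set.ncard_le_ncard h1 (Set.toFinite _)

theorem mem_of_sup {V : Type} {T : SimpleGraph V} {M : ℕ} (h : Pool.Agent.TH368.GD.Sup T M) :
    M ∈ gracefulSizes T := by
  obtain ⟨T', t1, t2, t3, t4⟩ := h
  exact ⟨Fin (M + 1), inferInstance, T', t1, t2, t3, t4⟩

theorem zero_mem {V : Type} [Fintype V] {T : SimpleGraph V} (hT : T.IsTree)
    (hm0 : T.edgeSet.ncard = 0) : 0 ∈ gracefulSizes T := by
  classical
  have hcard : Fintype.card V = T.edgeSet.ncard + 1 := by
    have h1 := hT.card_edgeFinset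
    rw [Set.ncard_eq_toFinset_card', ← h1]
    rfl
  have hsub : ∀ u v : V, u = v := fun u v => Fintype.card_le_one_iff.1 (by omega) u v
  refine ⟨V, inferInstance, T, hT, ⟨fun _ => 0, fun u v _ => hsub u v,
    fun _ => Nat.zero_le _, ?_⟩, SimpleGraph.IsContained.refl T, hm0⟩
  ext d
  rw [Set.mem_ofPred_eq, Set.mem_Icc]
  constructor
  · rintro ⟨u, v, huv, -⟩
    exact absurd (hsub u v) huv.ne
  · intro h
    omega

/-- Let `T` be a finite tree with `m` edges and `L` the number of leaves of the tree obtained from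
`T` by deleting all leaves.  Then `γ(T)` is attained and
`m ≤ γ(T) ≤ m + 2 (L - 2) min(⌊log₂ (L - 1)⌋, 6)`; if the vertices with at least three neighbours
which are not leaves lie on one path of `T` then `γ(T) ≤ m + 2 (L - 2)`.  (The subtractions are
truncated: for `L ≤ 2`, when `T` is a caterpillar, both bounds are `m`.) -/
theorem result (V : Type) [Fintype V] (T : SimpleGraph V) (hT : T.IsTree) :
    gamma T ∈ gracefulSizes T ∧ T.edgeSet.ncard ≤ gamma T ∧
      gamma T ≤ T.edgeSet.ncard +
        2 * (derivedLeaves T - 2) * min (Nat.log 2 (derivedLeaves T - 1)) 6 ∧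
      (BranchingOnPath T → gamma T ≤ T.edgeSet.ncard + 2 * (derivedLeaves T - 2)) := by
  rcases Nat.eq_zero_or_pos T.edgeSet.ncard with hm0 | hm0
  · have h0 := zero_mem hT hm0
    have hmem : gamma T ∈ gracefulSizes T := Nat.sInf_mem ⟨0, h0⟩
    have h1 : gamma T ≤ 0 := Nat.sInf_le h0
    refine ⟨hmem, le_of_mem hmem, by omega, fun _ => by omega⟩
  · obtain ⟨M, h1, h2⟩ := Pool.Agent.TH368.GD.both_main hT hm0
    have h3 := mem_of_sup h1
    have hmem : gamma T ∈ gracefulSizes T := Nat.sInf_mem ⟨M, h3⟩
    refine ⟨hmem, le_of_mem hmem, (Nat.sInf_le h3).trans h2, ?_⟩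
    rintro ⟨x, y, q, hq, hz⟩
    obtain ⟨M', h4, h5⟩ := Pool.Agent.TH368.GD.path_main hT hm0 ⟨x, y, q, hq, fun z hz' => hz z hz'⟩
    exact (Nat.sInf_le (mem_of_sup h4)).trans h5

end Pool.Agent.Results.MP_128071_co.DerivedTwelve
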