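import Pool.Agent.TH368.GD.Fin2
import Pool.Agent.TH368.GD.Cnt

/-!
# The smallest graceful tree containing a given lobster: `γ(T) ≤ m + L - 2`

A lobster is a tree with a path such that every vertex is at distance at most `2` from this path.
-/

set_option autoImplicit false

namespace Pool.Agent.Results.MP_128071_co.Lobsters

/-- A graph with `m` edges is graceful if there is an injective map `f` of the vertices to
`{0, 1, …, m}` such that the edge labels `|f u - f v|` are exactly `1, …, m`. -/
def Graceful {V : Type} (T : SimpleGraph V) : Prop :=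
  ∃ f : V → ℕ, Function.Injective f ∧ (∀ v, f v ≤ T.edgeSet.ncard) ∧
    {d : ℕ | ∃ u v : V, T.Adj u v ∧ d = Int.natAbs ((f u : ℤ) - (f v : ℤ))} =
      Set.Icc 1 T.edgeSet.ncard

/-- The numbers of edges of the finite graceful trees which have a subgraph isomorphic to `T`. -/
def gracefulSizes {V : Type} (T : SimpleGraph V) : Set ℕ :=
  {k | ∃ (W : Type) (_ : Fintype W) (T' : SimpleGraph W),
    T'.IsTree ∧ Graceful T' ∧ T.IsContained T' ∧ T'.edgeSet.ncard = k}

/-- `γ(T)`: the least number of edges of a graceful tree which has a subgraph isomorphic to `T`. -/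
noncomputable def gamma {V : Type} (T : SimpleGraph V) : ℕ := sInf (gracefulSizes T)

/-- The number of the vertices of `T` which are not leaves and have at most one neighbour that is
not a leaf, i.e. of the vertices of degree at most `1` of the tree obtained from `T` by deleting all
leaves. -/
noncomputable def derivedLeaves {V : Type} (T : SimpleGraph V) : ℕ :=
  {x : V | 2 ≤ (T.neighborSet x).ncard ∧
    {y : V | T.Adj x y ∧ 2 ≤ (T.neighborSet y).ncard}.ncard ≤ 1}.ncard

/-- There is a path such that every vertex is at distance at most `2` from a vertex of the path. -/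
def Lobster {V : Type} (T : SimpleGraph V) : Prop :=
  ∃ (x y : V) (q : T.Walk x y), q.IsPath ∧ ∀ z : V, ∃ u ∈ q.support, T.dist u z ≤ 2

theorem le_of_mem {V : Type} {T : SimpleGraph V} {k : ℕ}
    (hk : k ∈ gracefulSizes T) : T.edgeSet.ncard ≤ k := by
  classical
  obtain ⟨W, _, T', _, _, ⟨φ⟩, rfl⟩ := hk
  have hinj : Function.Injective φ := φ.injective
  have h1 : Sym2.map φ '' T.edgeSet ⊆ T'.edgeSet := by
    rintro _ ⟨e, he, rfl⟩
    induction e using Sym2.ind with
    | _ x y =>
      rw [Sym2.map_mk, SimpleGraph.mem_edgeSet]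
      exact φ.toHom.map_adj ((SimpleGraph.mem_edgeSet T).1 he)
  calc T.edgeSet.ncard = (Sym2.map φ '' T.edgeSet).ncard :=
        (Set.ncard_image_of_injective _ (Sym2.map.injective hinj)).symm
    _ ≤ T'.edgeSet.ncard := Set.ncard_le_ncard h1 (Set.toFinite _)

theorem mem_of_sup {V : Type} {T : SimpleGraph V} {M : ℕ} (h : Pool.Agent.TH368.GD.Sup T M) :
    M ∈ gracefulSizes T := by
  obtain ⟨T', t1, t2, t3, t4⟩ := h
  exact ⟨Fin (M + 1), inferInstance, T', t1, t2, t3, t4⟩

theorem zero_mem {V : Type} [Fintype V] {T : SimpleGraph V} (hT : T.IsTree)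
    (hm0 : T.edgeSet.ncard = 0) : 0 ∈ gracefulSizes T := by
  classical
  have hcard : Fintype.card V = T.edgeSet.ncard + 1 := by
    have h1 := hT.card_edgeFinset
    rw [Set.ncard_eq_toFinset_card', ← h1]
    rfl
  have hsub : ∀ u v : V, u = v := fun u v => Fintype.card_le_one_iff.1 (by omega) u v
  refine ⟨V, inferInstance, T, hT, ⟨fun _ => 0, fun u v _ => hsub u v,
    fun _ => Nat.zero_le _, ?_⟩, SimpleGraph.IsContained.refl T, hm0⟩
  ext d
  rw [Set.mem_ofPred_eq, Set.mem_Icc]
  constructor
  · rintro ⟨u, v, huv, -⟩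
    exact absurd (hsub u v) huv.ne
  · intro h
    omega

/-- Let `T` be a lobster with `m` edges and `L` the number of leaves of the tree obtained from `T`
by deleting all leaves.  Then `γ(T)` is attained, `m ≤ γ(T) ≤ m + (L - 2)` (truncated subtraction),
and `2 γ(T) ≤ 3 m - d` for the length `d` of every path of `T`. -/
theorem result (V : Type) [Fintype V] (T : SimpleGraph V) (hT : T.IsTree) (hL : Lobster T) :
    gamma T ∈ gracefulSizes T ∧ T.edgeSet.ncard ≤ gamma T ∧
      gamma T ≤ T.edgeSet.ncard + (derivedLeaves T - 2) ∧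
      ∀ (x y : V) (q : T.Walk x y), q.IsPath → 2 * gamma T + q.length ≤ 3 * T.edgeSet.ncard := by
  have h : gamma T ∈ gracefulSizes T ∧ T.edgeSet.ncard ≤ gamma T ∧
      gamma T ≤ T.edgeSet.ncard + (derivedLeaves T - 2) := by
    rcases Nat.eq_zero_or_pos T.edgeSet.ncard with hm0 | hm0
    · have h0 := zero_mem hT hm0
      have hmem : gamma T ∈ gracefulSizes T := Nat.sInf_mem ⟨0, h0⟩
      have h1 : gamma T ≤ 0 := Nat.sInf_le h0
      refine ⟨hmem, le_of_mem hmem, by omega⟩
    · obtain ⟨M, h1, h2⟩ := Pool.Agent.TH368.GD.lob_main hT hm0 hL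
      have h3 := mem_of_sup h1
      have hmem : gamma T ∈ gracefulSizes T := Nat.sInf_mem ⟨M, h3⟩
      exact ⟨hmem, le_of_mem hmem, (Nat.sInf_le h3).trans h2⟩
  refine ⟨h.1, h.2.1, h.2.2, fun x y q hq => ?_⟩
  have h1 : 2 * (derivedLeaves T - 2) + q.length ≤ T.edgeSet.ncard :=
    Pool.Agent.TH368.GD.cnt_holds V T hT x y q hq
  have h2 := h.2.2
  omega

end Pool.Agent.Results.MP_128071_co.Lobsters
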