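import Mathlib
import Pool.Agent.TH529.GD.Half

set_option autoImplicit false

/-!
# The smallest graceful tree containing a given tree: the excess is linear in the number of non-leaves

Let `T` be a finite tree with `m` edges and `k` non-leaves, `T'` the tree of its non-leaves.  Then
`γ(T) ≤ m + 2 γ(T') + 1`.  Hence `γ(T) ≤ m + 3 (k - 1)`; with the starting result
`AsymptoticGamma` for `T'`, also `γ(T) ≤ m + (2 + ε) k + C(ε)` for every `ε > 0`.

Proof.  Let `f` be the restriction to `T'` of a graceful labelling of a smallest graceful tree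
containing `T'`, shifted such that its least value is `0`, at the vertex `s`; let `K = γ(T')` and
`M = m + 2 K + 1`.  The non-leaves `x` get the labels `M - f x`, `k` new leaves at `s` get
`0, …, k - 1`, and the leaves of `T` get `k, k + 1, …` in the order of the values of `f` at their
neighbours.  The differences are distinct: those inside `T'` are at most `K`, the others are larger
and determined by the distinct numbers `f (parent) + label`.  For every `t` at least as many edges have
a difference larger than `t` as vertices have a label larger than `t`; by the completion lemma of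
helper49 (`TH49/GT/Complete`) joining each unused label `u` to some smaller label completes this to a
graceful tree with `M` edges.
-/

namespace Pool.Agent.Results.MP_128071_co.NonLeafExcess

open Pool.Agent.TH529.GD

/-- A graph with `m` edges is graceful if there is an injective map `f` of the vertices to
`{0, 1, …, m}` such that the edge labels `|f u - f v|` are exactly `1, …, m`. -/
def Graceful {V : Type} (T : SimpleGraph V) : Prop :=
  ∃ f : V → ℕ, Function.Injective f ∧ (∀ v, f v ≤ T.edgeSet.ncard) ∧
    {d : ℕ | ∃ u v : V, T.Adj u v ∧ d = Int.natAbs ((f u : ℤ) - (f v : ℤ))} =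
      Set.Icc 1 T.edgeSet.ncard

/-- The numbers of edges of the finite graceful trees which have a subgraph isomorphic to `T`. -/
def gracefulSizes {V : Type} (T : SimpleGraph V) : Set ℕ :=
  {k | ∃ (W : Type) (_ : Fintype W) (T' : SimpleGraph W),
    T'.IsTree ∧ Graceful T' ∧ T.IsContained T' ∧ T'.edgeSet.ncard = k}

/-- `γ(T)`: the least number of edges of a graceful tree which has a subgraph isomorphic to `T`. -/
noncomputable def gamma {V : Type} (T : SimpleGraph V) : ℕ := sInf (gracefulSizes T)

theorem le_of_mem {V : Type} {T : SimpleGraph V} {k : ℕ}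
    (hk : k ∈ gracefulSizes T) : T.edgeSet.ncard ≤ k := by
  classical
  obtain ⟨W, _, T', _, _, ⟨φ⟩, rfl⟩ := hk
  have hinj : Function.Injective φ := φ.injective
  have h1 : Sym2.map φ '' T.edgeSet ⊆ T'.edgeSet := by
    rintro _ ⟨e, he, rfl⟩
    induction e using Sym2.ind with
    | _ x y =>
      rw [Sym2.map_mk, SimpleGraph.mem_edgeSet]
      exact φ.toHom.map_adj ((SimpleGraph.mem_edgeSet T).1 he)
  calc T.edgeSet.ncard = (Sym2.map φ '' T.edgeSet).ncard :=
        (Set.ncard_image_of_injective _ (Sym2.map.injective hinj)).symm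
    _ ≤ T'.edgeSet.ncard := Set.ncard_le_ncard h1 (Set.toFinite _)

theorem sup_mem {V : Type} {T : SimpleGraph V} {M : ℕ} (h : Sup T M) : M ∈ gracefulSizes T := by
  obtain ⟨G, h1, h2, h3, h4⟩ := h
  refine ⟨Fin (M + 1), inferInstance, G, h1, ⟨fun x => (x : ℕ), Fin.val_injective, ?_, ?_⟩, h4, h2⟩
  · intro v
    rw [h2]
    exact Nat.le_of_lt_succ v.2
  · rw [h2]
    exact h3

theorem main {V : Type} [Fintype V] {T : SimpleGraph V} (hT : T.IsTree) (k : ℕ)
    (hk : {x : V | 2 ≤ (T.neighborSet x).ncard}.ncard = k) :
    gamma T ∈ gracefulSizes T ∧ T.edgeSet.ncard ≤ gamma T ∧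
      gamma T ≤ T.edgeSet.ncard +
        2 * gamma (T.induce {x : V | 2 ≤ (T.neighborSet x).ncard}) + 1 ∧
      gamma T ≤ T.edgeSet.ncard + 3 * (k - 1) := by
  classical
  by_cases hk1 : k ≤ 1
  · have h1 : T.edgeSet.ncard ∈ gracefulSizes T := sup_mem (sup_few hT (by omega))
    have h2 : gamma T ∈ gracefulSizes T := Nat.sInf_mem ⟨_, h1⟩
    have h3 : gamma T ≤ T.edgeSet.ncard := Nat.sInf_le h1
    exact ⟨h2, le_of_mem h2, by omega, by omega⟩
  · have hne : ∃ x, 2 ≤ (T.neighborSet x).ncard := by
      by_contra hcon
      push Not at hcon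
      have h1 : {x : V | 2 ≤ (T.neighborSet x).ncard} = ∅ := by
        rw [Set.eq_empty_iff_forall_notMem]
        intro x hx
        have h2 : 2 ≤ (T.neighborSet x).ncard := hx
        have := hcon x
        omega
      rw [h1, Set.ncard_empty] at hk
      omega
    obtain ⟨hd1, hd2⟩ := der_tree hT hne
    rw [hk] at hd2
    obtain ⟨M0, hM1, hM2⟩ := exists_three_halves hd1 (by omega)
    have hmem0 := sup_mem hM2
    have hg0 : gamma (T.induce {x : V | 2 ≤ (T.neighborSet x).ncard}) ∈
        gracefulSizes (T.induce {x : V | 2 ≤ (T.neighborSet x).ncard}) := Nat.sInf_mem ⟨_, hmem0⟩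
    have hg1 : gamma (T.induce {x : V | 2 ≤ (T.neighborSet x).ncard}) ≤ M0 := Nat.sInf_le hmem0
    have hmain : T.edgeSet.ncard +
        2 * gamma (T.induce {x : V | 2 ≤ (T.neighborSet x).ncard}) + 1 ∈ gracefulSizes T := by
      obtain ⟨W, _, S, hS1, ⟨F, hF1, hF2, hF3⟩, hS2, hS3⟩ := hg0
      have h1 := from_der hT hne S hS2 F hF1 hF2 hF3
      rw [hS3] at h1
      exact sup_mem h1
    have h2 : gamma T ∈ gracefulSizes T := Nat.sInf_mem ⟨_, hmain⟩
    have h3 : gamma T ≤ T.edgeSet.ncard +
        2 * gamma (T.induce {x : V | 2 ≤ (T.neighborSet x).ncard}) + 1 := Nat.sInf_le hmain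
    exact ⟨h2, le_of_mem h2, h3, by omega⟩

/-- For every finite tree `T` with `m` edges and `k` non-leaves (vertices of degree at least two):
`γ(T)` is attained, `m ≤ γ(T) ≤ m + 2 γ(T') + 1` for the subgraph `T'` induced by the non-leaves, and
`γ(T) ≤ m + 3 (k - 1)` (natural subtraction, which matters only for `k = 0`). -/
theorem result (V : Type) [Fintype V] (T : SimpleGraph V) (hT : T.IsTree) (k : ℕ)
    (hk : {x : V | 2 ≤ (T.neighborSet x).ncard}.ncard = k) :
    gamma T ∈ gracefulSizes T ∧ T.edgeSet.ncard ≤ gamma T ∧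
      gamma T ≤ T.edgeSet.ncard +
        2 * gamma (T.induce {x : V | 2 ≤ (T.neighborSet x).ncard}) + 1 ∧
      gamma T ≤ T.edgeSet.ncard + 3 * (k - 1) :=
  main hT k hk

end Pool.Agent.Results.MP_128071_co.NonLeafExcess
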