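import Pool.Agent.TH49.GT.Dom
import Pool.Agent.TH5.Tree.Sums

/-!
# The smallest graceful tree containing a given tree: `γ(T) ≤ m + a - 1 ≤ (3 m - 1) / 2`

Every finite tree `T` with `m` edges is a subtree of a graceful tree with at most `m + a - 1` edges,
where `a` is the size of either of the two colour classes of `T`; in particular with at most
`(3 m - 1) / 2` edges.  There are no exceptions and no constants.

Proof.  One class gets the labels `0, …, a - 1` in breadth first order, the other class is numbered
greedily from above with labels in `a, …, M`, `M = m + a - 1`, such that all differences are distinct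
(the labelling of `Pool.Agent.TH5.Tree`).  For every `t` there are at least as many edges with
difference larger than `t` as vertices with label larger than `t`.  So the unused labels `u` can be
matched with the missing differences `d` such that `d ≤ u`, and joining `u` to `u - d` gives a graceful
tree with `M` edges.
-/

set_option autoImplicit false

namespace Pool.Agent.Results.MP_128071_co.ThreeHalves

open Finset Pool.Agent.W58.Gr Pool.Agent.TH5.Tree Pool.Agent.TH49.GT

/-- A graph with `m` edges is graceful if there is an injective map `f` of the vertices to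
`{0, 1, …, m}` such that the edge labels `|f u - f v|` are exactly `1, …, m`. -/
def Graceful {V : Type} (T : SimpleGraph V) : Prop :=
  ∃ f : V → ℕ, Function.Injective f ∧ (∀ v, f v ≤ T.edgeSet.ncard) ∧
    {d : ℕ | ∃ u v : V, T.Adj u v ∧ d = Int.natAbs ((f u : ℤ) - (f v : ℤ))} =
      Set.Icc 1 T.edgeSet.ncard

/-- The numbers of edges of the finite graceful trees which have a subgraph isomorphic to `T`. -/
def gracefulSizes {V : Type} (T : SimpleGraph V) : Set ℕ :=
  {k | ∃ (W : Type) (_ : Fintype W) (T' : SimpleGraph W),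
    T'.IsTree ∧ Graceful T' ∧ T.IsContained T' ∧ T'.edgeSet.ncard = k}

/-- `γ(T)`: the least number of edges of a graceful tree which has a subgraph isomorphic to `T`. -/
noncomputable def gamma {V : Type} (T : SimpleGraph V) : ℕ := sInf (gracefulSizes T)

theorem le_of_mem {V : Type} {T : SimpleGraph V} {k : ℕ}
    (hk : k ∈ gracefulSizes T) : T.edgeSet.ncard ≤ k := by
  classical
  obtain ⟨W, _, T', _, _, ⟨φ⟩, rfl⟩ := hk
  have hinj : Function.Injective φ := φ.injective
  have h1 : Sym2.map φ '' T.edgeSet ⊆ T'.edgeSet := by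
    rintro _ ⟨e, he, rfl⟩
    induction e using Sym2.ind with
    | _ x y =>
      rw [Sym2.map_mk, SimpleGraph.mem_edgeSet]
      exact φ.toHom.map_adj ((SimpleGraph.mem_edgeSet T).1 he)
  calc T.edgeSet.ncard = (Sym2.map φ '' T.edgeSet).ncard :=
        (Set.ncard_image_of_injective _ (Sym2.map.injective hinj)).symm
    _ ≤ T'.edgeSet.ncard := Set.ncard_le_ncard h1 (Set.toFinite _)

theorem exists_supertree {V : Type} [Fintype V] {T : SimpleGraph V} (hT : T.IsTree) (c : V → Bool)
    (hc : ∀ u v, T.Adj u v → c u ≠ c v) (s : Bool) :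
    ∃ k ∈ gracefulSizes T, k ≤ T.edgeSet.ncard + {v | c v = s}.ncard - 1 := by
  classical
  set m : ℕ := T.edgeSet.ncard with hm
  have hcard : Fintype.card V = m + 1 := by
    have h1 := hT.card_edgeFinset
    rw [hm, Set.ncard_eq_toFinset_card', ← h1]
    rfl
  rcases Nat.eq_zero_or_pos m with hm0 | hm0
  · -- one vertex
    have hsub : ∀ u v : V, u = v := fun u v => Fintype.card_le_one_iff.1 (by omega) u v
    refine ⟨0, ⟨V, inferInstance, T, hT, ⟨fun _ => 0, fun u v _ => hsub u v, fun _ => Nat.zero_le _,
      ?_⟩, SimpleGraph.IsContained.refl T, hm0⟩, Nat.zero_le _⟩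
    ext d
    rw [Set.mem_ofPred_eq, Set.mem_Icc]
    constructor
    · rintro ⟨u, v, huv, -⟩
      exact absurd (hsub u v) huv.ne
    · intro h
      omega
  · obtain ⟨r, hr⟩ : ∃ r, c r = s := by
      by_contra hno
      push Not at hno
      have h5 : ∃ e, e ∈ T.edgeSet := by
        by_contra h6
        push Not at h6
        have h7 : T.edgeSet = ∅ := Set.eq_empty_iff_forall_notMem.2 h6
        rw [hm, h7, Set.ncard_empty] at hm0
        omega
      obtain ⟨e, he⟩ := h5
      induction e using Sym2.ind with
      | _ x y =>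
        have h6 := hc x y he
        have h7 := hno x
        have h8 := hno y
        revert h6 h7 h8
        cases c x <;> cases c y <;> cases s <;> simp
    obtain ⟨B, e, he, hinj, hsurj, hlev, hadj⟩ := exists_bfs hT r hcard
    obtain ⟨y, hy1, hy2, hy3⟩ := exists_greedy B
    have hpar : ∀ v, c v = s ↔ B.lev (e v) % 2 = 0 := by
      intro v
      rw [hlev, ← hr]
      exact color_dist hT hc r v
    have ha : {v | c v = s}.ncard = xx B (m + 1) := by
      have h2 : {v : V | c v = s}.ncard = ((univ : Finset V).filter (fun w => c w = s)).card := by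
        rw [← Set.ncard_coe_finset]
        congr 1
        ext w
        simp
      rw [h2, ← card_image_of_injective _ hinj]
      unfold xx
      congr 1
      ext i
      rw [mem_image, mem_filter, mem_range]
      constructor
      · rintro ⟨v, hv, rfl⟩
        rw [mem_filter] at hv
        have := he v
        exact ⟨by omega, (hpar v).1 hv.2⟩
      · rintro ⟨h3, h4⟩
        obtain ⟨v, hv⟩ := hsurj i (by omega)
        refine ⟨v, ?_, hv⟩
        rw [mem_filter]
        refine ⟨mem_univ _, (hpar v).2 ?_⟩
        rw [hv]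
        exact h4
    have ha1 : 1 ≤ xx B (m + 1) := by
      have h1 : xx B 0 < xx B (m + 1) := xx_lt B (Nat.succ_pos m) (by rw [B.lev0])
      omega
    obtain ⟨M, hM⟩ : ∃ M, M + 1 = m + xx B (m + 1) := ⟨m + xx B (m + 1) - 1, by omega⟩
    obtain ⟨g1, g2, g3, g4⟩ := greedy_complete B hm0 y hy1 hy2 hy3 M hM
    obtain ⟨G, t1, t2, t3, t4⟩ := complete B (FF B y M) M g1 g2 g3 g4
    refine ⟨M, ⟨Fin (M + 1), inferInstance, G, t1, ⟨fun x => (x : ℕ), Fin.val_injective, ?_, ?_⟩, ?_,
      t2⟩, ?_⟩
    · intro v
      rw [t2]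
      exact Nat.le_of_lt_succ v.2
    · rw [t2]
      exact t3
    · have hlt : ∀ v : V, FF B y M (e v) < M + 1 := fun v => Nat.lt_succ_of_le (g2 (e v) (he v))
      refine ⟨⟨⟨fun v => ⟨FF B y M (e v), hlt v⟩, ?_⟩, ?_⟩⟩
      · intro u v huv
        rcases hadj u v huv with ⟨h1, h2⟩ | ⟨h1, h2⟩
        · have h3 := t4 (e v) h1 (he v) (hlt v) (by rw [h2]; exact hlt u)
          have h4 : (⟨FF B y M (B.π (e v)), by rw [h2]; exact hlt u⟩ : Fin (M + 1)) =
            ⟨FF B y M (e u), hlt u⟩ := Fin.ext (by show FF B y M _ = FF B y M _; rw [h2])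
          rw [h4] at h3
          exact h3.symm
        · have h3 := t4 (e u) h1 (he u) (hlt u) (by rw [h2]; exact hlt v)
          have h4 : (⟨FF B y M (B.π (e u)), by rw [h2]; exact hlt v⟩ : Fin (M + 1)) =
            ⟨FF B y M (e v), hlt v⟩ := Fin.ext (by show FF B y M _ = FF B y M _; rw [h2])
          rw [h4] at h3
          exact h3
      · intro u v huv
        have h1 : FF B y M (e u) = FF B y M (e v) := congrArg (fun x : Fin (M + 1) => (x : ℕ)) huv
        exact hinj (g1 _ _ (he u) (he v) h1)
    · rw [ha]
      omega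

/-- Let `T` be a finite tree with `m` edges.  Then `γ(T)` is attained, `m ≤ γ(T)`, and
`γ(T) ≤ m + a - 1` if `a` is the size of one of the colour classes of a proper colouring of `T` with
two colours (the subtraction is truncated only for `m = 0`, when `γ(T) = 0`).  In particular
`γ(T) ≤ (3 m - 1) / 2`. -/
theorem result (V : Type) [Fintype V] (T : SimpleGraph V) (hT : T.IsTree) :
    gamma T ∈ gracefulSizes T ∧ T.edgeSet.ncard ≤ gamma T ∧
      (∀ c : V → Bool, (∀ u v, T.Adj u v → c u ≠ c v) → ∀ s : Bool,
        gamma T ≤ T.edgeSet.ncard + {v | c v = s}.ncard - 1) ∧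
      2 * gamma T ≤ 3 * T.edgeSet.ncard - 1 := by
  classical
  have hcard : Fintype.card V = T.edgeSet.ncard + 1 := by
    have h1 := hT.card_edgeFinset
    rw [Set.ncard_eq_toFinset_card', ← h1]
    rfl
  obtain ⟨r⟩ : Nonempty V := Fintype.card_pos_iff.1 (by omega)
  obtain ⟨B, e, he, hinj, hsurj, hlev, hadj⟩ := exists_bfs hT r hcard
  -- a colouring
  set c : V → Bool := fun v => decide (B.lev (e v) % 2 = 0) with hc
  have hc1 : ∀ u v, T.Adj u v → c u ≠ c v := by
    intro u v huv h
    have h0 : B.lev (e u) % 2 = 0 ↔ B.lev (e v) % 2 = 0 := by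
      rw [hc] at h
      simpa using h
    rcases hadj u v huv with ⟨h1, h2⟩ | ⟨h1, h2⟩
    · have h3 := B.levs (e v) h1 (he v)
      rw [h2] at h3
      omega
    · have h3 := B.levs (e u) h1 (he u)
      rw [h2] at h3
      omega
  have hup : ∀ c : V → Bool, (∀ u v, T.Adj u v → c u ≠ c v) → ∀ s : Bool,
      gamma T ≤ T.edgeSet.ncard + {v | c v = s}.ncard - 1 := by
    intro c hc s
    obtain ⟨k, hk1, hk2⟩ := exists_supertree hT c hc s
    exact (Nat.sInf_le hk1).trans hk2
  have hmem : gamma T ∈ gracefulSizes T := by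
    obtain ⟨k, hk1, _⟩ := exists_supertree hT c hc1 true
    exact Nat.sInf_mem ⟨k, hk1⟩
  refine ⟨hmem, le_of_mem hmem, hup, ?_⟩
  have h1 := hup c hc1 true
  have h2 := hup c hc1 false
  have htot : {v | c v = true}.ncard + {v | c v = false}.ncard = T.edgeSet.ncard + 1 := by
    have h1 : {v | c v = false} = {v | c v = true}ᶜ := by
      ext v
      simp
    rw [h1, Set.ncard_add_ncard_compl, Nat.card_eq_fintype_card, hcard]
  omega

end Pool.Agent.Results.MP_128071_co.ThreeHalves
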